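import Pool.Agent.EDX.Stmts1

/-!
EDX, row HNF: Hermite normal form of a principal ideal over `K[F]`.
-/

set_option autoImplicit false

namespace Pool.Agent.EDX.H69

open Polynomial Pool.Agent.EDG Pool.Agent.EDX

/-- the ideal of all `f` with `Φ ∣ f ∘ F` -/
def idI {K : Type} [Field K] (Fm Φ : K[X]) : Ideal K[X] where
  carrier := {f | Φ ∣ f.comp Fm}
  add_mem' {f g} hf hg := by
    show Φ ∣ (f + g).comp Fm
    rw [add_comp]
    exact dvd_add hf hg
  zero_mem' := by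
    show Φ ∣ (0 : K[X]).comp Fm
    rw [zero_comp]
    exact dvd_zero _
  smul_mem' c f hf := by
    show Φ ∣ (c * f).comp Fm
    rw [mul_comp]
    exact dvd_mul_of_dvd_right hf _

/-- the ideal of all `s` with `Φ ∣ u ∘ F + X (s ∘ F)` for some `u` -/
def idJ {K : Type} [Field K] (Fm Φ : K[X]) : Ideal K[X] where
  carrier := {s | ∃ u : K[X], Φ ∣ u.comp Fm + X * s.comp Fm}
  add_mem' {f g} hf hg := by
    obtain ⟨u, hu⟩ := hf
    obtain ⟨w, hw⟩ := hg
    refine ⟨u + w, ?_⟩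
    have h : (u + w).comp Fm + X * (f + g).comp Fm
        = (u.comp Fm + X * f.comp Fm) + (w.comp Fm + X * g.comp Fm) := by
      rw [add_comp, add_comp]
      ring
    rw [h]
    exact dvd_add hu hw
  zero_mem' := ⟨0, by rw [zero_comp, mul_zero, add_zero]; exact dvd_zero _⟩
  smul_mem' c f hf := by
    obtain ⟨u, hu⟩ := hf
    refine ⟨c * u, ?_⟩
    have h : (c * u).comp Fm + X * (c • f).comp Fm
        = c.comp Fm * (u.comp Fm + X * f.comp Fm) := by
      rw [smul_eq_mul, mul_comp, mul_comp]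
      ring
    rw [h]
    exact dvd_mul_of_dvd_right hu _

/-- the linear map `(f₀, f₁) ↦ f₀ ∘ F + X (f₁ ∘ F)` modulo `Φ` -/
noncomputable def mp {K : Type} [Field K] (Fm Φ : K[X]) (a b : ℕ) :
    (degreeLT K a × degreeLT K b) →ₗ[K] (K[X] ⧸ Ideal.span {Φ}) where
  toFun p := Ideal.Quotient.mk _ ((p.1 : K[X]).comp Fm + X * (p.2 : K[X]).comp Fm)
  map_add' p q := by
    rw [← map_add]
    congr 1
    show ((p.1 : K[X]) + (q.1 : K[X])).comp Fm + X * ((p.2 : K[X]) + (q.2 : K[X])).comp Fm = _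
    rw [add_comp, add_comp]
    ring
  map_smul' c p := by
    show Ideal.Quotient.mk _ ((c • (p.1 : K[X])).comp Fm + X * (c • (p.2 : K[X])).comp Fm)
      = c • Ideal.Quotient.mk _ ((p.1 : K[X]).comp Fm + X * (p.2 : K[X]).comp Fm)
    rw [smul_comp, smul_comp, mul_smul_comm, ← smul_add]
    rfl

theorem dim_le {K : Type} [Field K] (Fm Φ : K[X]) (hΦ : Φ ≠ 0) (a b : ℕ)
    (h : ∀ f₀ f₁ : K[X], f₀.degree < (a : WithBot ℕ) → f₁.degree < (b : WithBot ℕ) →
      Φ ∣ f₀.comp Fm + X * f₁.comp Fm → f₀ = 0 ∧ f₁ = 0) : a + b ≤ Φ.natDegree := by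
  have hfin : Module.Finite K (K[X] ⧸ Ideal.span {Φ}) := (AdjoinRoot.powerBasis hΦ).finite
  have hinj : Function.Injective (mp Fm Φ a b) := by
    rw [← LinearMap.ker_eq_bot, LinearMap.ker_eq_bot']
    rintro ⟨f₀, f₁⟩ hf
    have h1 : Φ ∣ (f₀ : K[X]).comp Fm + X * (f₁ : K[X]).comp Fm := by
      have h2 : Ideal.Quotient.mk (Ideal.span {Φ})
        ((f₀ : K[X]).comp Fm + X * (f₁ : K[X]).comp Fm) = 0 := hf
      rw [Ideal.Quotient.eq_zero_iff_mem, Ideal.mem_span_singleton] at h2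
      exact h2
    obtain ⟨h3, h4⟩ := h f₀ f₁ (mem_degreeLT.1 f₀.2) (mem_degreeLT.1 f₁.2) h1
    exact Prod.ext (Subtype.ext h3) (Subtype.ext h4)
  have h5 := LinearMap.finrank_le_finrank_of_injective hinj
  rw [finrank_quotient_span_eq_natDegree, Module.finrank_prod,
    (degreeLTEquiv K a).finrank_eq, (degreeLTEquiv K b).finrank_eq, Module.finrank_fin_fun,
    Module.finrank_fin_fun] at h5
  exact h5

theorem hnf : HnfStmt := by
  intro K _ Fm Φ _ _ hΦ
  obtain ⟨m, hm⟩ := (IsPrincipalIdealRing.principal (idI Fm Φ)).principal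
  obtain ⟨s, hs⟩ := (IsPrincipalIdealRing.principal (idJ Fm Φ)).principal
  have hmI : ∀ f : K[X], Φ ∣ f.comp Fm ↔ m ∣ f := by
    intro f
    have h1 : f ∈ idI Fm Φ ↔ f ∈ Ideal.span {m} := by rw [hm]
    rw [Ideal.mem_span_singleton] at h1
    exact h1
  have hsJ : ∀ f : K[X], (∃ u : K[X], Φ ∣ u.comp Fm + X * f.comp Fm) ↔ s ∣ f := by
    intro f
    have h1 : f ∈ idJ Fm Φ ↔ f ∈ Ideal.span {s} := by rw [hs]
    rw [Ideal.mem_span_singleton] at h1
    exact h1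
  have hm1 : Φ ∣ m.comp Fm := (hmI m).2 dvd_rfl
  have hm0 : m ≠ 0 := by
    intro h0
    have h1 := dim_le Fm Φ hΦ (Φ.natDegree + 1) 0 (by
      intro f₀ f₁ _ hf₁ hd
      have h2 : f₁ = 0 := by
        rw [← degree_eq_bot]
        exact Nat.WithBot.lt_zero_iff.1 hf₁
      rw [h2, zero_comp, mul_zero, add_zero, hmI, h0, zero_dvd_iff] at hd
      exact ⟨hd, h2⟩)
    omega
  have hsm : s ∣ m := by
    refine (hsJ m).1 ⟨0, ?_⟩
    rw [zero_comp, zero_add]
    exact dvd_mul_of_dvd_right hm1 _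
  obtain ⟨v, hv⟩ := hsm
  have hs0 : s ≠ 0 := by
    rintro rfl
    apply hm0
    rw [hv, zero_mul]
  obtain ⟨u₀, hu₀⟩ := (hsJ s).2 dvd_rfl
  refine ⟨m, s, u₀ % m, v, hm0, hs0, hv, degree_mod_lt _ hm0, hm1, ?_, ?_⟩
  · have h1 : (u₀ % m).comp Fm = u₀.comp Fm - m.comp Fm * (u₀ / m).comp Fm := by
      rw [← mul_comp, ← sub_comp]
      congr 1
      have h2 := EuclideanDomain.div_add_mod u₀ m
      exact eq_sub_of_add_eq' h2
    have h3 : (u₀ % m).comp Fm + X * s.comp Fm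
        = (u₀.comp Fm + X * s.comp Fm) - m.comp Fm * (u₀ / m).comp Fm := by
      rw [h1]
      ring
    rw [h3]
    exact dvd_sub hu₀ (dvd_mul_of_dvd_left hm1 _)
  · refine dim_le Fm Φ hΦ _ _ ?_
    intro f₀ f₁ h0 h1 hd
    have h2 : f₁ = 0 := by
      have h3 := (hsJ f₁).1 ⟨f₀, hd⟩
      refine eq_zero_of_dvd_of_degree_lt h3 ?_
      rwa [degree_eq_natDegree hs0]
    rw [h2, zero_comp, mul_zero, add_zero, hmI] at hd
    refine ⟨eq_zero_of_dvd_of_degree_lt hd ?_, h2⟩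
    rwa [degree_eq_natDegree hm0]

end Pool.Agent.EDX.H69
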